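import Pool.Agent.Helper18.RD.Stmts

/-! Row TR of project RD. -/

set_option autoImplicit false

namespace Pool.Agent.Helper97.RD

open Finset Pool.Agent.Helper18.RD Module

/-- pure inequality at the end -/
theorem tr_end {R D W W1 H : ℝ} (hR : 0 ≤ R) (hD : 0 < D) (hRD : R ≤ 2 * D) (hW1 : 0 ≤ W1)
    (hH : 0 ≤ H) (h : W * D ≤ R * W1 + H * (R * Real.sqrt D)) :
    W ≤ 2 * W1 + 2 * Real.sqrt R * H := by
  have h1 : Real.sqrt D * Real.sqrt D = D := Real.mul_self_sqrt hD.le
  have h2 : Real.sqrt R * Real.sqrt R = R := Real.mul_self_sqrt hR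
  have h3 : Real.sqrt R ≤ 2 * Real.sqrt D := by
    have : Real.sqrt R ≤ Real.sqrt (2 ^ 2 * D) := Real.sqrt_le_sqrt (by nlinarith)
    rwa [Real.sqrt_mul (by positivity), Real.sqrt_sq (by norm_num)] at this
  have hsR : 0 ≤ Real.sqrt R := Real.sqrt_nonneg R
  have hsD : 0 ≤ Real.sqrt D := Real.sqrt_nonneg D
  have h4 : R * Real.sqrt D ≤ 2 * Real.sqrt R * D := by
    have e1 : R * Real.sqrt D = Real.sqrt R * Real.sqrt R * Real.sqrt D := by rw [h2]
    have e2 : 2 * Real.sqrt R * D = Real.sqrt R * (2 * Real.sqrt D) * Real.sqrt D := by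
      rw [← h1]
      rw [h1]; nlinarith [h1]
    rw [e1, e2]
    exact mul_le_mul_of_nonneg_right (mul_le_mul_of_nonneg_left h3 hsR) hsD
  have h5 : W * D ≤ (2 * W1 + 2 * Real.sqrt R * H) * D := by
    have e3 : H * (R * Real.sqrt D) ≤ H * (2 * Real.sqrt R * D) :=
      mul_le_mul_of_nonneg_left h4 hH
    have e4 : R * W1 ≤ 2 * D * W1 := mul_le_mul_of_nonneg_right hRD hW1
    nlinarith
  exact le_of_mul_le_mul_right h5 hD

/-- the sum of the squares of the kernel of a projection -/
theorem ker_sq {κ β : Type*} [Fintype κ] [Fintype β] [DecidableEq κ] (u : κ → β → ℝ)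
    (h : ∀ i j, ∑ n, u i n * u j n = if i = j then 1 else 0) :
    ∑ n, ∑ n', (∑ i, u i n * u i n') ^ 2 = (Fintype.card κ : ℝ) := by
  have h1 : ∀ n n', (∑ i, u i n * u i n') ^ 2 =
      ∑ i, ∑ j, (u i n * u j n) * (u i n' * u j n') := by
    intro n n'
    rw [sq, Finset.sum_mul_sum]
    refine Finset.sum_congr rfl fun i _ => Finset.sum_congr rfl fun j _ => ?_
    ring
  calc ∑ n, ∑ n', (∑ i, u i n * u i n') ^ 2
      = ∑ n, ∑ n', ∑ i, ∑ j, (u i n * u j n) * (u i n' * u j n') := by
        refine Finset.sum_congr rfl fun n _ => Finset.sum_congr rfl fun n' _ => h1 n n'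
    _ = ∑ i, ∑ j, ∑ n, ∑ n', (u i n * u j n) * (u i n' * u j n') := by
        rw [show (∑ n, ∑ n', ∑ i, ∑ j, (u i n * u j n) * (u i n' * u j n')) =
          ∑ n, ∑ i, ∑ n', ∑ j, (u i n * u j n) * (u i n' * u j n') from
          Finset.sum_congr rfl fun n _ => Finset.sum_comm]
        rw [Finset.sum_comm]
        refine Finset.sum_congr rfl fun i _ => ?_
        rw [show (∑ n, ∑ n', ∑ j, (u i n * u j n) * (u i n' * u j n')) =
          ∑ n, ∑ j, ∑ n', (u i n * u j n) * (u i n' * u j n') from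
          Finset.sum_congr rfl fun n _ => Finset.sum_comm]
        rw [Finset.sum_comm]
    _ = ∑ i, ∑ j, (if i = j then (1 : ℝ) else 0) := by
        refine Finset.sum_congr rfl fun i _ => Finset.sum_congr rfl fun j _ => ?_
        have : ∑ n, ∑ n', (u i n * u j n) * (u i n' * u j n') =
            (∑ n, u i n * u j n) * (∑ n', u i n' * u j n') := by
          rw [Finset.sum_mul_sum]
        rw [this, h i j]
        split_ifs <;> simp
    _ = (Fintype.card κ : ℝ) := by
        simp

/-- Cauchy–Schwarz for the kernel -/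
theorem ker_abs {β : Type*} [Fintype β] (P : β → β → ℝ) (D : ℝ)
    (h : ∑ n, ∑ n', P n n' ^ 2 = D) :
    ∑ n, ∑ n', |P n n'| ≤ (Fintype.card β : ℝ) * Real.sqrt D := by
  have h1 : (∑ x : β × β, |P x.1 x.2|) ^ 2 ≤
      (Fintype.card (β × β) : ℝ) * ∑ x : β × β, |P x.1 x.2| ^ 2 := by
    have := sq_sum_le_card_mul_sum_sq (s := (Finset.univ : Finset (β × β)))
      (f := fun x => |P x.1 x.2|)
    simpa using this
  have h2 : ∑ x : β × β, |P x.1 x.2| = ∑ n, ∑ n', |P n n'| := by
    rw [Fintype.sum_prod_type]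
  have h3 : ∑ x : β × β, |P x.1 x.2| ^ 2 = D := by
    rw [Fintype.sum_prod_type, ← h]
    simp
  rw [h2, h3, Fintype.card_prod] at h1
  push_cast at h1
  have hD : 0 ≤ D := by rw [← h]; positivity
  have h4 : (∑ n, ∑ n', |P n n'|) ^ 2 ≤ ((Fintype.card β : ℝ) * Real.sqrt D) ^ 2 := by
    rw [mul_pow, Real.sq_sqrt hD]; nlinarith
  exact le_of_sq_le_sq h4 (by positivity)

/-- the trace inequality for an abstract orthonormal family -/
theorem tr_core {ι κ β : Type*} [DecidableEq ι] [Fintype κ] [DecidableEq κ] [Fintype β]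
    [DecidableEq β] (V1 V2 : Finset ι)
    (w : ι → ℝ) (hw : ∀ l, 0 ≤ w l) (e : β → ι → ℝ) (he : ∀ n l, e n l ^ 2 = 1)
    (H : ℝ) (hH : 0 ≤ H)
    (hG : ∀ n n', n ≠ n' → |∑ l ∈ V1 ∪ V2, w l * (e n l * e n' l)| ≤ H)
    (u : κ → β → ℝ) (hu : ∀ i j, ∑ n, u i n * u j n = if i = j then 1 else 0)
    (h0 : ∀ l ∈ V2, ∀ i, ∑ n, u i n * e n l = 0)
    (hB : ∀ l, ∑ i, (∑ n, u i n * e n l) ^ 2 ≤ (Fintype.card β : ℝ)) :
    (∑ l ∈ V1 ∪ V2, w l) * (Fintype.card κ : ℝ) ≤ (Fintype.card β : ℝ) * (∑ l ∈ V1, w l) +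
      H * ((Fintype.card β : ℝ) * Real.sqrt (Fintype.card κ : ℝ)) := by
  set V := V1 ∪ V2 with hV
  set P : β → β → ℝ := fun n n' => ∑ i, u i n * u i n' with hP
  set G : β → β → ℝ := fun n n' => ∑ l ∈ V, w l * (e n l * e n' l) with hGdef
  -- the sum, evaluated from above
  have hup : ∑ i, ∑ l ∈ V, w l * (∑ n, u i n * e n l) ^ 2 ≤
      (Fintype.card β : ℝ) * ∑ l ∈ V1, w l := by
    rw [Finset.sum_comm]
    have h1 : ∀ l ∈ V, ∑ i, w l * (∑ n, u i n * e n l) ^ 2 ≤
        if l ∈ V1 then (Fintype.card β : ℝ) * w l else 0 := by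
      intro l hl
      rw [← Finset.mul_sum]
      split_ifs with hl1
      · rw [mul_comm]
        exact mul_le_mul_of_nonneg_right (hB l) (hw l)
      · have hl2 : l ∈ V2 := by
          rcases Finset.mem_union.1 hl with h | h
          · exact absurd h hl1
          · exact h
        rw [Finset.sum_eq_zero (fun i _ => by rw [h0 l hl2 i]; simp), mul_zero]
    refine (Finset.sum_le_sum h1).trans ?_
    rw [← Finset.sum_filter, Finset.mul_sum]
    refine Finset.sum_le_sum_of_subset_of_nonneg ?_ ?_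
    · intro l hl
      exact (Finset.mem_filter.1 hl).2
    · intro l _ _
      exact mul_nonneg (Nat.cast_nonneg _) (hw l)
  -- the sum through the Gram matrix
  have hmid : ∑ i, ∑ l ∈ V, w l * (∑ n, u i n * e n l) ^ 2 = ∑ n, ∑ n', P n n' * G n n' := by
    have h1 : ∀ i, ∀ l, w l * (∑ n, u i n * e n l) ^ 2 =
        ∑ n, ∑ n', (u i n * u i n') * (w l * (e n l * e n' l)) := by
      intro i l
      rw [sq, Finset.sum_mul_sum, Finset.mul_sum]
      refine Finset.sum_congr rfl fun n _ => ?_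
      rw [Finset.mul_sum]
      refine Finset.sum_congr rfl fun n' _ => ?_
      ring
    have h2 : ∀ i, ∑ l ∈ V, w l * (∑ n, u i n * e n l) ^ 2 =
        ∑ n, ∑ n', (u i n * u i n') * G n n' := by
      intro i
      rw [Finset.sum_congr rfl fun l _ => h1 i l, Finset.sum_comm]
      refine Finset.sum_congr rfl fun n _ => ?_
      rw [Finset.sum_comm]
      refine Finset.sum_congr rfl fun n' _ => ?_
      rw [hGdef]
      simp only
      rw [Finset.mul_sum]
    rw [Finset.sum_congr rfl fun i _ => h2 i, Finset.sum_comm]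
    refine Finset.sum_congr rfl fun n _ => ?_
    rw [Finset.sum_comm]
    refine Finset.sum_congr rfl fun n' _ => ?_
    rw [hP]
    simp only
    rw [Finset.sum_mul]
  -- lower bound
  have hdiag : ∀ n, G n n = ∑ l ∈ V, w l := by
    intro n
    rw [hGdef]
    simp only
    refine Finset.sum_congr rfl fun l _ => ?_
    have := he n l
    rw [sq] at this
    rw [this, mul_one]
  have htr : ∑ n, P n n = (Fintype.card κ : ℝ) := by
    rw [hP]
    simp only
    rw [Finset.sum_comm]
    rw [Finset.sum_congr rfl fun i _ => hu i i]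
    simp
  have hW0 : 0 ≤ ∑ l ∈ V, w l := Finset.sum_nonneg fun l _ => hw l
  have hlow : (∑ l ∈ V, w l) * (Fintype.card κ : ℝ) - H * ∑ n, ∑ n', |P n n'| ≤
      ∑ n, ∑ n', P n n' * G n n' := by
    have h1 : ∀ n n', (if n = n' then P n n * (∑ l ∈ V, w l) else 0) - H * |P n n'| ≤
        P n n' * G n n' := by
      intro n n'
      split_ifs with hn
      · subst hn
        rw [hdiag n]
        have : 0 ≤ H * |P n n| := mul_nonneg hH (abs_nonneg _)
        linarith
      · have h2 : |P n n' * G n n'| ≤ |P n n'| * H := by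
          rw [abs_mul]
          exact mul_le_mul_of_nonneg_left (hG n n' hn) (abs_nonneg _)
        have h3 := neg_abs_le (P n n' * G n n')
        linarith
    have h2 : ∑ n, ∑ n', ((if n = n' then P n n * (∑ l ∈ V, w l) else 0) - H * |P n n'|) ≤
        ∑ n, ∑ n', P n n' * G n n' :=
      Finset.sum_le_sum fun n _ => Finset.sum_le_sum fun n' _ => h1 n n'
    refine le_trans (le_of_eq ?_) h2
    simp only [Finset.sum_sub_distrib, Finset.sum_ite_eq, Finset.mem_univ, if_true]
    rw [← Finset.sum_mul, htr, Finset.mul_sum]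
    rw [mul_comm]
    congr 1
    refine Finset.sum_congr rfl fun n _ => ?_
    rw [Finset.mul_sum]
  have hPabs := ker_abs P _ (ker_sq u hu)
  have : H * ∑ n, ∑ n', |P n n'| ≤
      H * ((Fintype.card β : ℝ) * Real.sqrt (Fintype.card κ : ℝ)) :=
    mul_le_mul_of_nonneg_left hPabs hH
  linarith

theorem st_TR : ST_TR := by
  intro ι _ V1 V2 S w e H hw hH he hdis hG hV2
  classical
  rcases Nat.eq_zero_or_pos S.card with hS | hS
  · have hV2' : V2 = ∅ := by
      rw [← Finset.card_eq_zero]; omega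
    subst hV2'
    have h0 : 0 ≤ ∑ l ∈ V1, w l := Finset.sum_nonneg fun l _ => hw l
    have h1 : 0 ≤ 2 * Real.sqrt S.card * H := by positivity
    rw [Finset.union_empty]
    linarith
  let E := EuclideanSpace ℝ {x // x ∈ S}
  let ev : ι → E := fun l => WithLp.toLp 2 (fun n : {x // x ∈ S} => e n l)
  let K : Submodule ℝ E := Submodule.span ℝ ((V2.image ev : Finset E) : Set E)
  have hK : finrank ℝ K ≤ V2.card :=
    (finrank_span_finset_le_card (R := ℝ) (V2.image ev)).trans Finset.card_image_le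
  have hE : finrank ℝ E = S.card := by
    simp [E]
  have hadd : finrank ℝ K + finrank ℝ Kᗮ = S.card := by
    rw [← hE]; exact K.finrank_add_finrank_orthogonal
  let b := stdOrthonormalBasis ℝ Kᗮ
  let u : Fin (finrank ℝ Kᗮ) → E := fun i => (b i : E)
  have hu : Orthonormal ℝ u := b.orthonormal.comp_linearIsometry Kᗮ.subtypeₗᵢ
  have hin : ∀ x y : E, inner ℝ x y = ∑ n, x n * y n := by
    intro x y
    rw [PiLp.inner_apply]
    refine Finset.sum_congr rfl fun n _ => ?_
    simp [mul_comm]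
  have hcore := tr_core (β := {x // x ∈ S}) (κ := Fin (finrank ℝ Kᗮ)) V1 V2 w hw
    (fun n l => e n l) (fun n l => he n l) H hH
    (fun n n' hn => hG n n.2 n' n'.2 (fun h => hn (Subtype.ext h)))
    (fun i n => u i n)
    (fun i j => by
      rw [← hin (u i) (u j)]
      exact (orthonormal_iff_ite.1 hu) i j)
    (fun l hl i => by
      have h1 : inner ℝ (ev l) (u i) = 0 := by
        have hb : (b i : E) ∈ Kᗮ := (b i).2
        exact (Submodule.mem_orthogonal K (b i : E)).1 hb (ev l)
          (Submodule.subset_span (by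
            rw [Finset.coe_image]
            exact ⟨l, hl, rfl⟩))
      rw [real_inner_comm, hin] at h1
      exact h1)
    (fun l => by
      have h1 := hu.sum_inner_products_le (x := ev l) (s := Finset.univ)
      have h2 : ‖ev l‖ ^ 2 = (Fintype.card {x // x ∈ S} : ℝ) := by
        rw [← real_inner_self_eq_norm_sq, hin]
        rw [Finset.sum_congr rfl (g := fun _ => (1 : ℝ)) (fun n _ => by
          have := he n l
          rw [sq] at this
          exact this)]
        simp
      rw [h2] at h1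
      refine le_trans (le_of_eq ?_) h1
      refine Finset.sum_congr rfl fun i _ => ?_
      rw [Real.norm_eq_abs, sq_abs, hin])
  rw [Fintype.card_fin, Fintype.card_coe] at hcore
  have hD : 0 < finrank ℝ Kᗮ := by omega
  have hD' : (S.card : ℝ) ≤ 2 * (finrank ℝ Kᗮ : ℝ) := by
    have : S.card ≤ 2 * finrank ℝ Kᗮ := by omega
    exact_mod_cast this
  exact tr_end (Nat.cast_nonneg _) (by exact_mod_cast hD) hD'
    (Finset.sum_nonneg fun l _ => hw l) hH hcore

end Pool.Agent.Helper97.RD
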